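import Pool.Agent.Lib.MP_b5021c_nt.BP.H57.Eta
import Pool.Agent.Lib.MP_b5021c_nt.BP.H71.Zf

/-!
# Board b5, BpS, row (B2) of the BAD case: `m ≥ 2` implies `g = 1` and `p = N`

`E` over `ℤ` of class `V(N)`, rank `2N - 1`; `T ~ x` mutual with the loads `eT`, `ex`;
`w E_0 = p`, `w eT E_T = -e`, `w eb E_b = -g`, `w eb eT E_(b+T) = e`, `e(0) = m ≥ 2`,
`3 m ≤ N + 1`.  The closing `H = E(w^T = eta eT)` over `Eis` has only z-free factors.
-/

namespace Pool.Agent.B5.BP83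

open scoped LaurentPolynomial
open Polynomial Pool.Agent.B5
open Pool.Agent.MP_b5021c_nt (Eis)
open Pool.Agent.MP_b5021c_nt.Ire (bc)
open Pool.Agent.B5.H25.Bch
open Pool.Agent.B5.BP90 (Et pE pE_inj embN et_im_ne)
open Pool.Agent.B5.BP57

/-- a unit of the ring of polynomials with constant coefficient one. -/
theorem one_of_unit {O : Type} [CommRing O] [IsDomain O] [IsPrincipalIdealRing O] [Coef O]
    (hU : UnitRS) {g : O[X]} (hg0 : g.coeff 0 = 1) (h : IsUnit (toLaurent g : RO O)) : g = 1 := by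
  obtain ⟨k, u, hu, h1⟩ := (hU O _).mp h
  have h2 : (LaurentPolynomial.T 0 : RO O) * toLaurent g =
      LaurentPolynomial.T k * toLaurent (C u) := by
    rw [LaurentPolynomial.T_zero, one_mul, h1, toLaurent_C, mul_comm]
  obtain ⟨-, h3⟩ := H09.nf_unique 0 k g (C u) (by rw [hg0]; exact one_ne_zero) (by
    rw [coeff_C_zero]; exact hu.ne_zero) h2
  rw [h3, coeff_C_zero] at hg0
  rw [h3, hg0, C_1]

/-! ## Numbers -/

/-- the norm of the apex. -/
theorem nE_val {et : Eis} (he : Et et) (N m : ℕ) :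
    ‖(Coef.emb (((N : ℤ) : Eis) - et * ((m : ℤ) : Eis)) : ℂ)‖ ^ 2 =
      (N : ℝ) ^ 2 - N * m + (m : ℝ) ^ 2 := by
  obtain ⟨h1, h2⟩ := he
  rw [← Complex.normSq_eq_norm_sq, Complex.normSq_apply]
  simp only [map_sub, map_mul, embN, Complex.sub_re, Complex.sub_im, Complex.mul_re,
    Complex.mul_im, Complex.intCast_re, Complex.intCast_im, h1, zero_sub, mul_zero, sub_zero,
    zero_add]
  push_cast
  nlinarith

/-- the bound of the rank. -/
theorem bev_num {n N m : ℕ} (hn : (n : ℝ) = (N : ℝ) ^ 2 - N * m + (m : ℝ) ^ 2) (hm : 2 ≤ m)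
    (h : 3 * m ≤ N + 1) : Bev n ≤ 2 * N - 2 := by
  obtain ⟨k, rfl⟩ : ∃ k, m = k + 2 := ⟨m - 2, by omega⟩
  obtain ⟨j, rfl⟩ : ∃ j, N = 3 * k + 5 + j := ⟨N - (3 * k + 5), by omega⟩
  have h1 : n = (3 * k + 5 + j) ^ 2 + (k + 2) ^ 2 - (3 * k + 5 + j) * (k + 2) := by
    have h2 : ((n + (3 * k + 5 + j) * (k + 2) : ℕ) : ℝ) =
        (((3 * k + 5 + j) ^ 2 + (k + 2) ^ 2 : ℕ) : ℝ) := by
      push_cast at hn ⊢
      linarith
    have h3 : n + (3 * k + 5 + j) * (k + 2) = (3 * k + 5 + j) ^ 2 + (k + 2) ^ 2 := by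
      exact_mod_cast h2
    omega
  have h2 : n + (3 * k + 5 + j) * (k + 2) = (3 * k + 5 + j) ^ 2 + (k + 2) ^ 2 := by
    rw [h1]
    apply Nat.sub_add_cancel
    nlinarith
  have h19 : 19 ≤ n := by nlinarith
  unfold Bev
  rw [if_neg (by omega), if_neg (by omega)]
  have h3 : 2 * (3 * k + 5 + j) - 2 = 6 * k + 8 + 2 * j := by omega
  rw [h3, ← Nat.lt_succ_iff, Nat.sqrt_lt]
  nlinarith

section

variable {P L : Type} [Fintype P] [DecidableEq P] [AddCommGroup L] [Module.Free ℤ L]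
  [Module.Finite ℤ L] {phi : L →+ (P → ℤ)} {E : AO ℤ L} {S0 : L} {i0 : P}

/-- No small factor at the load `eta e0` of a ray with a drop at `e0`. -/
theorem nosm (hE2 : E2S) (hVZ : VZS) (hU : UnitRS) (hC0 : Coeff0S) (hQst : QstS) (hQra : QraS)
    (hMin : MinS) (hB5 : B5aS) (hRk : RkS) (hKm : KmuS) (hQc : Qc3S) (hDv : Dv3S)
    (hNd : Nd3vS) {h0 : co phi i0 S0 = 1} {N m : ℕ} {w e0 : (RO ℤ)ˣ}
    {p g : ℤ[X]} {et : Eis} (he : Et et) {k0 : (RO Eis)ˣ}
    (hk0 : (k0 : RO Eis) = LaurentPolynomial.C et * bcR (e0 : RO ℤ)) (hD : DD phi E)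
    (hN : 2 ≤ N) (hm : 1 ≤ m) (hmN : m ≤ N) (hrk2 : 2 ≤ Module.finrank ℤ L)
    (hcv : ClassV N (E.coeff 0))
    (hS : Ray E S0) (hp : (w : RO ℤ) * E.coeff 0 = toLaurent p) (hp0 : p.coeff 0 = N)
    (hg : (w : RO ℤ) * ((e0 : RO ℤ) * E.coeff S0) = -toLaurent g) (hg0 : g.coeff 0 = m)
    (hdrop : rk (supp (cl (co phi i0) S0 h0 e0 E)) < Module.finrank ℤ (Ker (co phi i0)))
    (hfull : rk (supp (cl (co phi i0) S0 h0 k0 (bc E))) = Module.finrank ℤ (Ker (co phi i0)))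
    {c : RO Eis} {n : ℕ} {G : Fin n → AO Eis (Ker (co phi i0))}
    (fd : FD phi (bc E) S0 i0 k0 h0 c n G) (hMc : M c = 1) : snp phi S0 i0 G = ∅ := by
  classical
  have hpne : p.coeff 0 ≠ 0 := by rw [hp0]; exact_mod_cast (by omega : N ≠ 0)
  have hN' : (2 : ℝ) ≤ N := by exact_mod_cast hN
  have hm' : (1 : ℝ) ≤ m := by exact_mod_cast hm
  have hmN' : (m : ℝ) ≤ N := by exact_mod_cast hmN
  obtain ⟨hpz, -⟩ := zf_of_unit hU hcv hp hpne
  obtain ⟨hpcl, hle, hlt⟩ := ray_polyU hE2 hVZ hD hrk2 hS hp hg hpz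
  have hv0 := eta_v0 (E := E) hk0 hp hg
  obtain ⟨v, hv⟩ : ∃ v : Eis[X], v = pE p - C et * pE g := ⟨_, rfl⟩
  rw [← hv] at hv0
  have hvc : v.coeff 0 = ((N : ℤ) : Eis) - et * ((m : ℤ) : Eis) := by
    rw [hv, coeff_sub, coeff_C_mul, pE_coeff, pE_coeff, hp0, hg0]
  have hvn := nE_val he N m
  rw [← hvc] at hvn
  have hvpos : 0 < ‖(Coef.emb (v.coeff 0) : ℂ)‖ := by
    rcases (norm_nonneg (Coef.emb (v.coeff 0) : ℂ)).lt_or_eq with h | h
    · exact h
    · rw [← h] at hvn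
      nlinarith
  have hvne : v.coeff 0 ≠ 0 := by
    intro h1
    rw [h1, map_zero, norm_zero] at hvpos
    exact lt_irrefl _ hvpos
  by_contra hcon
  have hsn : (snp phi S0 i0 G).Nonempty := Finset.nonempty_iff_ne_empty.mpr hcon
  obtain ⟨m1, s, hnf⟩ := nf_of_unit hU hv0
  have hne' : bcU e0 ≠ k0 := by
    intro h1
    apply et_ne_one he
    have h2 : (k0 : RO Eis) = bcR (e0 : RO ℤ) := by rw [← h1]; rfl
    rw [hk0] at h2
    have h3 : (bcR (e0 : RO ℤ)) ≠ 0 := (bcU e0).ne_zero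
    have h4 : (LaurentPolynomial.C et : RO Eis) = LaurentPolynomial.C 1 := by
      rw [map_one]
      exact mul_right_cancel₀ h3 (by rw [h2, one_mul])
    exact C_injL h4
  have hdr : rk (supp (cl (co phi i0) S0 h0 (bcU e0) (bc E))) <
      Module.finrank ℤ (Ker (co phi i0)) := by
    rw [H09.cl_bc, supp_bc]
    exact hdrop
  obtain ⟨t, ht0, -, ht⟩ := tsgO hQst hQra hMin hC0 hB5 hRk hKm hQc hDv fd
    hMc hsn hfull hne' hdr hnf (by
      intro z0 hz0 hdv
      have h1 : (C (Coef.emb (s : Eis) : ℂ) * v.map (Coef.emb : Eis →+* ℂ)) =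
          (C (s : Eis) * v).map (Coef.emb : Eis →+* ℂ) := by
        rw [Polynomial.map_mul, map_C]
      rw [← h1] at hdv
      have hsu : IsUnit (C (Coef.emb (s : Eis) : ℂ)) := by
        rw [isUnit_C, isUnit_iff_ne_zero, ← norm_pos_iff, norm_unit]
        exact one_pos
      have hdv2 : (X - C z0) ^ 2 ∣ v.map (Coef.emb : Eis →+* ℂ) :=
        (hsu.dvd_mul_left).mp hdv
      refine hNd (p.map (Coef.emb : ℤ →+* ℂ)) (v.map (Coef.emb : Eis →+* ℂ)) z0 hpcl ?_ ?_ hz0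
        hdv2
      · intro z hz
        rw [hv, Polynomial.map_sub, Polynomial.map_mul, map_C, eval_sub, eval_mul, eval_C,
          pE_eval, pE_eval, sub_mul, Complex.sub_re]
        have h2 : ((p.map (Coef.emb : ℤ →+* ℂ)).eval z *
            (starRingEnd ℂ) ((p.map (Coef.emb : ℤ →+* ℂ)).eval z)).re =
            ‖(p.map (Coef.emb : ℤ →+* ℂ)).eval z‖ ^ 2 := by
          rw [Complex.mul_conj, Complex.normSq_eq_norm_sq, Complex.ofReal_re]
        have h3 := Complex.re_le_norm (Coef.emb et * (g.map (Coef.emb : ℤ →+* ℂ)).eval z *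
            (starRingEnd ℂ) ((p.map (Coef.emb : ℤ →+* ℂ)).eval z))
        rw [norm_mul, norm_mul, et_norm he, one_mul, RCLike.norm_conj] at h3
        have h4 := hle z hz
        rw [h2]
        nlinarith [norm_nonneg ((p.map (Coef.emb : ℤ →+* ℂ)).eval z),
          mul_le_mul_of_nonneg_right h4 (norm_nonneg ((p.map (Coef.emb : ℤ →+* ℂ)).eval z))]
      · intro h2
        apply hvne
        have h3 := congrArg (fun f : ℂ[X] => f.coeff 0) h2
        simp only [coeff_map, coeff_zero] at h3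
        exact emb_inj (h3.trans (map_zero _).symm))
  -- the apex at the load one
  have h5 : ((bcU w : (RO Eis)ˣ) : RO Eis) * ((bc E).coeff 0 +
      ((bcU e0 : (RO Eis)ˣ) : RO Eis) * (bc E).coeff S0) = toLaurent (pE p - pE g) := by
    have h1 := congrArg bcR hp
    have h2 := congrArg bcR hg
    rw [map_mul, bcR_L] at h1
    rw [map_mul, map_mul, map_neg, bcR_L] at h2
    rw [H09.bcU_val, H09.bcU_val, bc_co, bc_co, map_sub]
    linear_combination h1 + h2
  obtain ⟨y, hy⟩ : ∃ y : RO Eis, y = ((bcU e0 : (RO Eis)ˣ) : RO Eis) *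
      ((k0⁻¹ : (RO Eis)ˣ) : RO Eis) := ⟨_, rfl⟩
  rw [← hy] at ht
  have hy1 : LaurentPolynomial.C et * y = 1 := by
    rw [hy, H09.bcU_val, ← mul_assoc, ← hk0, Units.mul_inv]
  obtain ⟨k, τ, hτ, hτ0⟩ := H40.exists_normal t ht0
  have h6 : (LaurentPolynomial.T 0 : RO Eis) * toLaurent (C et * (pE p - pE g)) =
      LaurentPolynomial.T k * toLaurent (C (et - 1) * τ * v) := by
    rw [LaurentPolynomial.T_zero, one_mul, map_mul, toLaurent_C, ← h5, ht, map_mul, map_mul,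
      toLaurent_C, ← hv0, map_sub, map_one]
    have h7 : LaurentPolynomial.C et * (1 - y) = LaurentPolynomial.C et - 1 := by
      rw [mul_sub, hy1, mul_one]
    rw [hτ]
    linear_combination (((bcU w : (RO Eis)ˣ) : RO Eis) * (LaurentPolynomial.T k * toLaurent τ *
      ((bc E).coeff 0 + (k0 : RO Eis) * (bc E).coeff S0))) * h7
  have e1 : (C et * (pE p - pE g)).coeff 0 = et * (((N : ℤ) : Eis) - ((m : ℤ) : Eis)) := by
    rw [coeff_C_mul, coeff_sub, pE_coeff, pE_coeff, hp0, hg0]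
  have e2 : (C (et - 1) * τ * v).coeff 0 = (et - 1) * τ.coeff 0 * v.coeff 0 := by
    rw [mul_coeff_zero, mul_coeff_zero, coeff_C_zero]
  have hn1 : ‖(Coef.emb (et * (((N : ℤ) : Eis) - ((m : ℤ) : Eis))) : ℂ)‖ = (N : ℝ) - m := by
    rw [map_mul, norm_mul, et_norm he, one_mul, map_sub, embN, embN]
    have h8 : ((N : ℤ) : ℂ) - ((m : ℤ) : ℂ) = (((N : ℝ) - m : ℝ) : ℂ) := by push_cast; ring
    rw [h8, Complex.norm_real, Real.norm_eq_abs, abs_of_nonneg (by linarith)]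
  have hne2 : (C (et - 1) * τ * v).coeff 0 ≠ 0 := by
    rw [e2]
    exact mul_ne_zero (mul_ne_zero (sub_ne_zero.mpr (et_ne_one he)) hτ0) hvne
  have hne1 : (C et * (pE p - pE g)).coeff 0 ≠ 0 := by
    intro h8
    -- `m = N`: the right side has a nonzero constant coefficient in normal form
    have h9 : (m : ℝ) = N := by
      rw [e1] at h8
      rw [h8, map_zero, norm_zero] at hn1
      linarith
    have h10 := hlt 0 (by simp)
    have hev : ∀ f : ℤ[X], (f.map (Coef.emb : ℤ →+* ℂ)).eval 0 = ((f.coeff 0 : ℤ) : ℂ) := by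
      intro f
      rw [← coeff_zero_eq_eval_zero, coeff_map]
      exact map_intCast (Coef.emb : ℤ →+* ℂ) (f.coeff 0)
    rw [hev, hev, hp0, hg0] at h10
    have h11 : (m : ℤ) = (N : ℤ) := by exact_mod_cast h9
    rw [h11] at h10
    exact lt_irrefl _ h10
  obtain ⟨-, h8⟩ := H09.nf_unique 0 k _ _ hne1 hne2 h6
  have h9 := congrArg (fun f : Eis[X] => ‖(Coef.emb (f.coeff 0) : ℂ)‖) h8
  simp only [e1, e2] at h9
  rw [hn1, map_mul, map_mul, norm_mul, norm_mul] at h9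
  have h10 : ‖(Coef.emb (et - 1) : ℂ)‖ = 1 := by
    rw [← et_sub_norm he, ← norm_neg, ← map_neg, neg_sub]
  rw [h10, one_mul] at h9
  have h11 := Coef.one_le (τ.coeff 0) hτ0
  have h12 : ‖(Coef.emb (v.coeff 0) : ℂ)‖ ≤ (N : ℝ) - m := by
    rw [h9]
    nlinarith
  have h13 := pow_le_pow_left₀ hvpos.le h12 2
  rw [hvn] at h13
  nlinarith

/-- (B2). -/
theorem b2 (hFD : FDS) (hE2 : E2S) (hVZ : VZS) (hU : UnitRS) (hMV : MVS)
    (hE1 : E1S) (hM1 : M1S) (hMm : MmulS) (hC0 : Coeff0S)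
    (hQst : QstS) (hQra : QraS) (hMin : MinS) (hB5 : B5aS) (hRk : RkS)
    (hKm : KmuS) (hQc : Qc3S) (hDv : Dv3S) (hNd : Nd3vS) (hLMN : LMNS) (hUS : RkUSS)
    (hG1 : G1pS) (hFw : H71.FclwS) (hL2 : L2S) (hR : ResWDS) (hRS : ResStS) (hEv : EvS)
    (hEvm : EvmS) {N m : ℕ} (hD : DD phi E) (hrk : Module.finrank ℤ L + 1 = 2 * N)
    (hcv : ClassV N (E.coeff 0)) {b T x : L} {i1 : P} {w eb eT ex : (RO ℤ)ˣ}
    (hm : Mut E T x eT ex) (hI : ImS phi T) (h1 : co phi i1 T = 1) (x1 : co phi i1 x = 0)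
    (b1 : co phi i1 b = 0) {p e g : ℤ[X]} (hm2 : 2 ≤ m) (h3m : 3 * m ≤ N + 1)
    (hp0 : p.coeff 0 = N) (he0 : e.coeff 0 = m) (hg0 : g.coeff 0 = 1)
    (hp : (w : RO ℤ) * E.coeff 0 = toLaurent p)
    (hg : (w : RO ℤ) * ((eb : RO ℤ) * E.coeff b) = -toLaurent g)
    (hcT : (w : RO ℤ) * ((eT : RO ℤ) * E.coeff T) = -toLaurent e)
    (hcx : (w : RO ℤ) * ((ex : RO ℤ) * E.coeff x) = -toLaurent e)
    (hcTx : (w : RO ℤ) * ((eT : RO ℤ) * (ex : RO ℤ) * E.coeff (T + x)) = toLaurent e)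
    (hcbT : (w : RO ℤ) * ((eb : RO ℤ) * (eT : RO ℤ) * E.coeff (b + T)) = toLaurent e) :
    g = 1 ∧ p = C (N : ℤ) ∧ e = C (m : ℤ) := by
  obtain ⟨et, he⟩ : ∃ et : Eis, Et et := ⟨_, Pool.Agent.B5.BP90.et_g6⟩
  have hN5 : 5 ≤ N := by omega
  have hrk2 : 2 ≤ Module.finrank ℤ L := by omega
  have hpne : p.coeff 0 ≠ 0 := by rw [hp0]; exact_mod_cast (by omega : N ≠ 0)
  obtain ⟨hpz, -⟩ := zf_of_unit hU hcv hp hpne
  obtain ⟨hpcl, hle, hlt⟩ := ray_polyU hE2 hVZ hD hrk2 hm.r0 hp hcT hpz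
  have hDb : DD phi (bc E) := dd_bc hD (by omega)
  have hmb : Mut (bc E) T x (bcU eT) (bcU ex) := (H09.mut_bc E T x eT ex).mpr hm
  -- units
  have hetu : IsUnit et := IsUnit.of_mul_eq_one _ (et_mul he)
  obtain ⟨eu, heu⟩ := (hetu.map (LaurentPolynomial.C : Eis →+* RO Eis))
  obtain ⟨k1, hk1⟩ : ∃ k1 : (RO Eis)ˣ, (k1 : RO Eis) = LaurentPolynomial.C et * bcR (eT : RO ℤ) :=
    ⟨eu * bcU eT, by rw [Units.val_mul, heu]; rfl⟩
  have hne' : k1 ≠ bcU eT := by
    intro h2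
    apply et_ne_one he
    have h3 : (k1 : RO Eis) = bcR (eT : RO ℤ) := by rw [h2]; rfl
    rw [hk1] at h3
    have h4 : (bcR (eT : RO ℤ)) ≠ 0 := (bcU eT).ne_zero
    have h5 : (LaurentPolynomial.C et : RO Eis) = LaurentPolynomial.C 1 := by
      rw [map_one]
      exact mul_right_cancel₀ h4 (by rw [h3, one_mul])
    exact C_injL h5
  have hfull := full_of_mut hLMN hUS hRk hDb hmb hne' (i0 := i1) h1
  have hdrop := drop_of_mut hUS hRk hD hm (i0 := i1) h1
  have hTb : Ray (bc E) T := (H09.ray_bc E T).mpr hm.r0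
  -- coefficients over `Eis`
  have cp := congrArg bcR hp
  have cg := congrArg bcR hg
  have cT := congrArg bcR hcT
  have cx := congrArg bcR hcx
  have cTx := congrArg bcR hcTx
  have cbT := congrArg bcR hcbT
  simp only [map_mul, map_neg, bcR_L] at cp cg cT cx cTx cbT
  have hbinE : ∀ a ∈ supp (bc E), co phi i1 a = 0 ∨ co phi i1 a = 1 := fun a ha => hDb.bin a ha i1
  have hc1 := Pool.Agent.B5.H47.cl_coeff_bin (co phi i1) T h1 k1 (bc E) hbinE
  let x' : Ker (co phi i1) := ⟨x, x1⟩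
  let b' : Ker (co phi i1) := ⟨b, b1⟩
  have c0 : ((bcU w : (RO Eis)ˣ) : RO Eis) * (cl (co phi i1) T h1 k1 (bc E)).coeff 0 =
      toLaurent (pE p - C et * pE e) := by
    rw [hc1, map_sub, map_mul, toLaurent_C, bc_co, H09.bcU_val]
    change bcR (w : RO ℤ) * (bcR (E.coeff 0) + (k1 : RO Eis) * (bc E).coeff (0 + T)) = _
    rw [zero_add, bc_co, hk1]
    linear_combination cp + LaurentPolynomial.C et * cT
  have hetc : LaurentPolynomial.C et * (1 - LaurentPolynomial.C et) = (1 : RO Eis) := by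
    rw [← map_one LaurentPolynomial.C, ← map_sub, ← map_mul, et_mul he]
  -- the ray `x`
  have cx' : ((bcU w * bcU ex * eu : (RO Eis)ˣ) : RO Eis) *
      (cl (co phi i1) T h1 k1 (bc E)).coeff x' = toLaurent (-pE e) := by
    rw [hc1, map_neg, bc_co, Units.val_mul, Units.val_mul, heu, H09.bcU_val, H09.bcU_val]
    change bcR (w : RO ℤ) * bcR (ex : RO ℤ) * LaurentPolynomial.C et *
      (bcR (E.coeff x) + (k1 : RO Eis) * (bc E).coeff (x + T)) = _
    rw [add_comm x T, bc_co, hk1]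
    linear_combination LaurentPolynomial.C et * cx + (LaurentPolynomial.C et *
      LaurentPolynomial.C et) * cTx - toLaurent (pE e) * hetc
  -- the point `b`
  have cb' : ((bcU w * bcU eb : (RO Eis)ˣ) : RO Eis) *
      (cl (co phi i1) T h1 k1 (bc E)).coeff b' = toLaurent (C et * pE e - pE g) := by
    rw [hc1, map_sub, map_mul, toLaurent_C, bc_co, Units.val_mul, H09.bcU_val, H09.bcU_val]
    change bcR (w : RO ℤ) * bcR (eb : RO ℤ) *
      (bcR (E.coeff b) + (k1 : RO Eis) * (bc E).coeff (b + T)) = _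
    rw [bc_co, hk1]
    linear_combination cg + LaurentPolynomial.C et * cbT
  -- the values at zero
  have hm' : (2 : ℝ) ≤ m := by exact_mod_cast hm2
  have hN' : (5 : ℝ) ≤ N := by exact_mod_cast hN5
  have him := et_im_ne he
  have hmim : (Coef.emb et : ℂ).im * (m : ℝ) ≠ 0 := mul_ne_zero him (by positivity)
  have v0 : (pE p - C et * pE e).coeff 0 = ((N : ℤ) : Eis) - et * ((m : ℤ) : Eis) := by
    rw [coeff_sub, coeff_C_mul, pE_coeff, pE_coeff, hp0, he0]
  have vx : (-pE e).coeff 0 = -((m : ℤ) : Eis) := by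
    rw [coeff_neg, pE_coeff, he0]
  have vb : (C et * pE e - pE g).coeff 0 = et * ((m : ℤ) : Eis) - 1 := by
    rw [coeff_sub, coeff_C_mul, pE_coeff, pE_coeff, he0, hg0]
    push_cast
    rfl
  have n0 : (pE p - C et * pE e).coeff 0 ≠ 0 := by
    rw [v0]
    intro h0
    have h3 := congrArg (fun y : Eis => (Coef.emb y : ℂ).im) h0
    simp only [map_sub, map_mul, map_zero, embN, Complex.sub_im, Complex.mul_im,
      Complex.intCast_re, Complex.intCast_im, Complex.zero_im, mul_zero, zero_add, zero_sub,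
      neg_eq_zero] at h3
    exact hmim (by exact_mod_cast h3)
  have hmE : ((m : ℤ) : Eis) ≠ 0 := by
    intro h0
    have h3 := congrArg (fun y : Eis => (Coef.emb y : ℂ)) h0
    simp only [embN, map_zero] at h3
    have h4 : (m : ℤ) = 0 := by exact_mod_cast h3
    omega
  have nx : (-pE e).coeff 0 ≠ 0 := by
    rw [vx]
    exact neg_ne_zero.mpr hmE
  have nb : (C et * pE e - pE g).coeff 0 ≠ 0 := by
    rw [vb]
    intro h0
    have h3 := congrArg (fun y : Eis => (Coef.emb y : ℂ).im) h0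
    simp only [map_sub, map_mul, map_one, map_zero, embN, Complex.sub_im, Complex.mul_im,
      Complex.one_im, Complex.intCast_re, Complex.intCast_im, Complex.zero_im,
      mul_zero, zero_add, sub_zero] at h3
    exact hmim (by exact_mod_cast h3)
  -- the apex
  have hv0 := eta_v0 (E := E) hk1 hp hcT
  have hvn := nE_val he N m
  have h3m' : (3 : ℝ) * m ≤ N + 1 := by exact_mod_cast h3m
  have hv1 : 1 ≤ ‖(Coef.emb ((pE p - C et * pE e).coeff 0) : ℂ)‖ := Coef.one_le _ n0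
  have hV := classV_of hU hv0 hv1 (eta_zf he hlt)
  have hne : (bc E).coeff 0 + (k1 : RO Eis) * (bc E).coeff T ≠ 0 := ((hMV Eis).1 _ _ hV).1
  rw [v0] at hV
  obtain ⟨c, n, G, fd⟩ := hFD Eis P L phi (bc E) T i1 k1 h1 ⟨hDb, hrk2, hTb, h1, hne⟩
  -- the content
  have hcd : ∀ a, c ∣ (cl (co phi i1) T h1 k1 (bc E)).coeff a := by
    intro a
    rw [fd.eq, H78.cstm]
    exact dvd_mul_right _ _
  have hcu : IsUnit c := by
    have d0 : c ∣ toLaurent (pE p - C et * pE e) := by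
      rw [← c0]
      exact (hcd 0).mul_left _
    have dx : c ∣ toLaurent (pE e) := by
      have h3 : c ∣ toLaurent (-pE e) := by
        rw [← cx']
        exact (hcd x').mul_left _
      rw [map_neg] at h3
      exact dvd_neg.mp h3
    have db : c ∣ toLaurent (C et * pE e - pE g) := by
      rw [← cb']
      exact (hcd b').mul_left _
    rw [map_sub, map_mul] at d0 db
    have dg : c ∣ toLaurent (pE g) := by
      have h3 := dvd_sub (dx.mul_left (toLaurent (C et))) db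
      rwa [sub_sub_cancel] at h3
    have dp : c ∣ toLaurent (pE p) := by
      have h3 := dvd_add d0 (dx.mul_left (toLaurent (C et)))
      rwa [sub_add_cancel] at h3
    have dp' : c ∣ bcR (E.coeff 0) := by
      rw [← cp] at dp
      exact (IsUnit.dvd_mul_left (bcU w).isUnit).mp dp
    have hz := (hE2 Eis P L phi (bc E) hDb hrk2).1
    rw [bc_co] at hz
    refine unit_of_two hE1 hMV hM1 hU (classV_bc hcv) hz dp' dg (w := 1) (r := pE g) ?_ ?_
    · rw [Units.val_one, one_mul]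
    · rw [pE_coeff, hg0, embN]
      norm_num
  have hMc : M c = 1 := (hMm Eis).2.2 c hcu
  have hs := nosm hE2 hVZ hU hC0 hQst hQra hMin hB5 hRk hKm hQc hDv hNd he hk1 hD (by omega)
    (by omega) (by omega) hrk2 hcv hm.r0 hp hp0 hcT he0 hdrop hfull fd hMc
  -- z-free
  have hbev : Bev (nE (((N : ℤ) : Eis) - et * ((m : ℤ) : Eis))) ≤
      rk (supp (cl (co phi i1) T h1 k1 (bc E))) := by
    have h3 := finrank_kerO hRk h1
    have h4 := bev_num (n := nE (((N : ℤ) : Eis) - et * ((m : ℤ) : Eis))) (N := N) (m := m) (by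
      rw [Pool.Agent.B5.H93.nE_cast, hvn]) hm2 h3m
    rw [hfull]
    omega
  have hZ := Zf.zf_all hG1 hFw hL2 hR hRS hEv hEvm hE1 hMV hMm hI fd hs hMc hV hbev
  have q1 := Zf.prop_poly hU hZ fd.eq c0 cx' n0 nx
  have q2 := Zf.prop_poly hU hZ fd.eq c0 cb' n0 nb
  rw [v0, vx] at q1
  rw [v0, vb] at q2
  -- `m p = N e`, `e = m g`
  have hal : C (((N : ℤ) : Eis) - et * ((m : ℤ) : Eis)) ≠ 0 := by
    rw [Ne, C_eq_zero, ← v0]
    exact n0
  have hmC : (C ((m : ℤ) : Eis)) ≠ 0 := by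
    rw [Ne, C_eq_zero]
    exact hmE
  have r1 : C ((m : ℤ) : Eis) * pE p = C ((N : ℤ) : Eis) * pE e := by
    simp only [C_sub, C_mul, C_neg] at q1
    linear_combination q1
  have r2 : pE e = C ((m : ℤ) : Eis) * pE g := by
    apply mul_left_cancel₀ hal
    simp only [C_sub, C_mul, C_1] at q2 ⊢
    linear_combination C ((m : ℤ) : Eis) * q2 + (C et * C ((m : ℤ) : Eis) - 1) * r1
  have r3 : pE p = C ((N : ℤ) : Eis) * pE g := by
    apply mul_left_cancel₀ hmC
    rw [r1, r2]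
    ring
  have hpC : ∀ (k : ℤ) (f : ℤ[X]), pE (C k * f) = C ((k : ℤ) : Eis) * pE f := by
    intro k f
    rw [pE, Polynomial.map_mul, map_C]
    rfl
  have s2 : e = C (m : ℤ) * g := pE_inj (by rw [r2, hpC])
  have s3 : p = C (N : ℤ) * g := pE_inj (by rw [r3, hpC])
  have hgu : IsUnit (toLaurent g : RO ℤ) := by
    have d1 : (toLaurent g : RO ℤ) ∣ E.coeff 0 := by
      have h3 : (toLaurent g : RO ℤ) ∣ (w : RO ℤ) * E.coeff 0 := by
        rw [hp, s3, map_mul]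
        exact dvd_mul_left _ _
      exact (IsUnit.dvd_mul_left w.isUnit).mp h3
    refine unit_of_two hE1 hMV hM1 hU hcv (hE2 ℤ P L phi E hD hrk2).1 d1 dvd_rfl (w := 1)
      (r := g) (by rw [Units.val_one, one_mul]) ?_
    rw [hg0, map_one, norm_one]
  have hg1 := one_of_unit hU hg0 hgu
  refine ⟨hg1, ?_, ?_⟩
  · rw [s3, hg1, mul_one]
  · rw [s2, hg1, mul_one]

end

end Pool.Agent.B5.BP83
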