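import Pool.Agent.Lib.MP_b5021c_nt.IfaceBPR
import Pool.Agent.Lib.MP_b5021c_nt.UF.H83.Dcpg
import Pool.Agent.Lib.MP_b5021c_nt.BP.H71.Fclg
import Pool.Agent.Lib.MP_b5021c_nt.B.H09.E2Psz

/-!
# Board b5, BpS, rows `DecS`, `CtbS` (helper83): decoupling of a closing with the content
`1 - ep z^k`, without z-freeness; the ports of `S` may be met in part

`V = (1 - u) G`, `X = G + (1 - u) R`, `u = ep z^k`: `E' = (1 - t y) G + (1 - t) (1 - y) R` with a new
port `t` instead of `u` is stable, irreducible, of class `V(N)` and rank `2N`, so z-free.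
-/

set_option linter.unusedSectionVars false

namespace Pool.Agent.B5.DecP

open scoped LaurentPolynomial
open Pool.Agent.B5 Pool.Agent.B5.H83 Pool.Agent.B5.H96 Pool.Agent.B5.H07 Pool.Agent.B5.UF.H19

section parts

variable {P : Type} [Fintype P] [DecidableEq P] {L : Type} [AddCommGroup L] [Module.Free ℤ L]
  [Module.Finite ℤ L] {phi : L →+ (P → ℤ)} {E : AO ℤ L} {S : L} {i0 : P}
  {h : co phi i0 S = 1} {eta : (RO ℤ)ˣ} {G R : AO ℤ (Ker (co phi i0))} {z : (RO ℤ)ˣ}

/-- an exponent of `G` or `R` comes from `E`. -/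
theorem from_E (H : Cx phi E S i0 h eta G R z) (a : Ker (co phi i0))
    (ha : G.coeff a ≠ 0 ∨ R.coeff a ≠ 0) : E.coeff (a : L) ≠ 0 ∨ E.coeff ((a : L) + S) ≠ 0 := by
  by_contra hcon
  push Not at hcon
  obtain ⟨h1, h2⟩ := hcon
  have e0 := E_coeff0 H a
  have e1 := E_coeff1 H a
  rw [h1] at e0
  rw [h2, mul_zero] at e1
  have e2 : (1 - (z : RO ℤ)) * G.coeff a = 0 := by linear_combination -e0 - e1
  have e3 : G.coeff a = 0 := (mul_eq_zero.1 e2).resolve_left H.ne
  rw [e3, zero_add] at e0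
  have e4 : R.coeff a = 0 := (mul_eq_zero.1 e0.symm).resolve_left H.ne
  rcases ha with ha | ha
  · exact ha e3
  · exact ha e4

/-- the exponents of `G` and `R` are in `W(I,J)`. -/
theorem ww_GR (h6 : G0S) (H : Cx phi E S i0 h eta G R z) (a : Ker (co phi i0))
    (ha : G.coeff a ≠ 0 ∨ R.coeff a ≠ 0) :
    WW (phK phi (co phi i0)) (II phi S i0) (OO phi S) a := by
  by_cases hG : G.coeff a = 0
  · -- `a` is an exponent of `E`
    have h1 : R.coeff a ≠ 0 := by
      rcases ha with ha | ha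
      · exact absurd hG ha
      · exact ha
    have e0 := E_coeff0 H a
    rw [hG, zero_add] at e0
    have h2 : E.coeff (a : L) ≠ 0 := by
      rw [e0]
      exact mul_ne_zero H.ne h1
    have hb := H.cc.dd.bin _ h2
    refine ⟨fun j _ => hb j, Or.inl fun j _ => hb j, ?_⟩
    intro j hj1 hj2
    have h3 : phi S j = 1 := by
      rcases H.cc.dd.bin S H.cc.ray.1 j with h4 | h4
      · exact absurd (Finset.mem_filter.2 ⟨Finset.mem_univ j, h4⟩) hj2
      · exact h4
    have h4 : j = i0 := by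
      by_contra h5
      exact hj1 (Finset.mem_filter.2 ⟨Finset.mem_univ j, h3, h5⟩)
    rw [h4]
    exact a.2
  · refine (h6 ℤ P L phi E S i0 eta h H.cc).2.2.2.1 a ?_
    change (cl (co phi i0) S h eta E).coeff a ≠ 0
    rw [H.V, cst_mul_coeff]
    exact mul_ne_zero H.ne hG

include h in
/-- the exponents of `A`. -/
theorem supp_A' (a : L) (ha : a ∈ supp (Ap phi S i0 eta G R)) :
    ∃ b : Ker (co phi i0), (G.coeff b ≠ 0 ∨ R.coeff b ≠ 0) ∧ (a = b ∨ a = b + S) := by
  have ha1 : (Ap phi S i0 eta G R).coeff a ≠ 0 := ha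
  rcases co_A (h := h) a ha with h1 | h1
  · refine ⟨⟨a, h1⟩, ?_, Or.inl rfl⟩
    have e1 := A_coeff0 (h := h) (eta := eta) (G := G) (R := R) ⟨a, h1⟩
    change (Ap phi S i0 eta G R).coeff a = _ at e1
    by_contra hcon
    push Not at hcon
    rw [hcon.1, hcon.2, add_zero] at e1
    exact ha1 e1
  · have hK : a - S ∈ Ker (co phi i0) := by
      rw [mem_Ker, map_sub, h1, h, sub_self]
    refine ⟨⟨a - S, hK⟩, ?_, Or.inr (sub_add_cancel a S).symm⟩
    have e1 := A_coeff1 (h := h) (eta := eta) (G := G) (R := R) ⟨a - S, hK⟩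
    change (eta : RO ℤ) * (Ap phi S i0 eta G R).coeff (a - S + S) = _ at e1
    rw [sub_add_cancel] at e1
    right
    intro h2
    rw [h2, neg_zero] at e1
    exact ha1 ((mul_eq_zero.1 e1).resolve_left eta.ne_zero)

/-- the functional of the ray on the exponents of `A`. -/
theorem lam_A (H : Cx phi E S i0 h eta G R z) (lam : L →+ ℤ) (hS : lam S = 0)
    (hlam : ∀ a ∈ supp E, a ≠ 0 → a ≠ S → 0 < lam a) (a : L)
    (ha : a ∈ supp (Ap phi S i0 eta G R)) : 0 ≤ lam a ∧ (a ≠ 0 → 0 < lam a + co phi i0 a) := by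
  obtain ⟨b, hb, hab⟩ := supp_A' (h := h) a ha
  have hb0 : co phi i0 (b : L) = 0 := b.2
  have h1 : 0 ≤ lam (b : L) ∧ ((b : L) ≠ 0 → 0 < lam (b : L)) := by
    by_cases h0 : (b : L) = 0
    · rw [h0, map_zero]
      exact ⟨le_rfl, fun h => absurd rfl h⟩
    · have h2 : 0 < lam (b : L) := by
        rcases from_E H b hb with h3 | h3
        · refine hlam _ h3 h0 ?_
          intro h4
          rw [h4, h] at hb0
          exact one_ne_zero hb0
        · have h4 := hlam _ h3 (by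
            intro h5
            have := congrArg (co phi i0) h5
            rw [map_add, hb0, h, map_zero] at this
            omega) (by
            intro h5
            exact h0 (by simpa using h5))
          rw [map_add, hS, add_zero] at h4
          exact h4
      exact ⟨h2.le, fun _ => h2⟩
  rcases hab with h2 | h2
  · rw [h2, hb0, add_zero]
    exact ⟨h1.1, h1.2⟩
  · rw [h2, map_add, map_add, hS, hb0, h, add_zero]
    exact ⟨h1.1, fun _ => by omega⟩

theorem A_ne' (h2 : MultiS) (h3 : StSpecS) (h5 : B2cS) (h6 : G0S) (h7 : EvRS)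
    (H : Cx phi E S i0 h eta G R z) (lam : L →+ ℤ) (hS : lam S = 0)
    (hlam : ∀ a ∈ supp E, a ≠ 0 → a ≠ S → 0 < lam a) {z0 : Circle}
    (hz : evR z0 (E.coeff 0 + (eta : RO ℤ) * E.coeff S) ≠ 0) (u : AddChar L Circle) (s : ℂ)
    (hs : ‖s‖ < 1) :
    (sl u (lam + co phi i0) (spec z0 (Ap phi S i0 eta G R))).eval s ≠ 0 := by
  have hla := lam_A H lam hS hlam
  have hca := co_A (h := h) (eta := eta) (G := G) (R := R)
  rw [Dcm.sl_two z0 u lam (co phi i0) _ (fun a ha => ⟨(hla a ha).1, by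
    rcases hca a ha with h | h <;> omega⟩) s]
  rw [shift (co phi i0) S h lam z0 u _ hca s s,
    two_slice (co phi i0) S h eta lam hS z0 _ _ hca s _, cl_A,
    res_A (h := h)]
  set v := u.compAddMonoidHom (incl (Ker (co phi i0))) with hv
  obtain ⟨h8, h9⟩ := harn (h := h) h2 h3 h5 h6 h7 H.cc lam hS hlam z0 hz v s hs
  rw [H.V, sl_cst] at h8 h9
  rw [H.X] at h9
  rw [map_add, H83.sl_add, Polynomial.eval_add, sl_cst] at h9
  rw [map_add, H83.sl_add, Polynomial.eval_add]
  have hn : ‖evR z0 (eta : RO ℤ)‖ = 1 := (h7 ℤ).2.1 z0 _ eta.isUnit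
  have hζ : ‖evR z0 (z : RO ℤ)‖ = 1 := (h7 ℤ).2.1 z0 _ z.isUnit
  rw [map_sub, map_one] at h8 h9
  rw [← mul_assoc]
  refine val_ne _ _ (evR z0 (z : RO ℤ)) _ hζ h8 h9 ?_
  rw [norm_mul, norm_mul, norm_inv, hn, Circle.norm_coe, inv_one, mul_one, mul_one]
  exact hs

theorem A_stable' (h2 : MultiS) (h3 : StSpecS) (h5 : B2cS) (h6 : G0S) (h7 : EvRS) (hA : A3bS)
    (hZ : ZfinS) (H : Cx phi E S i0 h eta G R z) : Stable (Ap phi S i0 eta G R) := by
  obtain ⟨lam, hlS, hlam⟩ := H.cc.ray.2.2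
  refine Dcm.stable_of_generic h7 hA hZ _ (lam + co phi i0) ?_
    (E.coeff 0 + (eta : RO ℤ) * E.coeff S) H.cc.v0 ?_
  · intro a ha ha0
    exact (lam_A H lam hlS hlam a (Finsupp.mem_support_iff.1 ha)).2 ha0
  · intro z0 hz u s hs
    exact A_ne' h2 h3 h5 h6 h7 H lam hlS hlam hz u s hs

/-! ### The ports -/

/-- the exponents modulo `S`, and the port `i0`. -/
def psi (phi : L →+ (P → ℤ)) (S : L) (i0 : P) : L →+ (P → ℤ) where
  toFun x := fun q => if q ∈ II phi S i0 then phi x q - phi x i0 else phi x q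
  map_zero' := by
    funext q
    simp
  map_add' x y := by
    funext q
    simp only [map_add, Pi.add_apply]
    split_ifs
    · ring
    · rfl

theorem psi_inj (hinj : Function.Injective phi) : Function.Injective (psi phi S i0) := by
  rw [injective_iff_map_eq_zero]
  intro x hx
  apply hinj
  rw [map_zero]
  have h0 : phi x i0 = 0 := by
    have h1 := congrFun hx i0
    change (if i0 ∈ II phi S i0 then phi x i0 - phi x i0 else phi x i0) = 0 at h1
    rw [if_neg] at h1
    · exact h1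
    · intro h2
      exact (Finset.mem_filter.1 h2).2.2 rfl
  funext q
  have h1 := congrFun hx q
  change (if q ∈ II phi S i0 then phi x q - phi x i0 else phi x q) = 0 at h1
  rw [h0, sub_zero, ite_self] at h1
  exact h1

/-- `W(I, J)` with the port `i0` in `J`. -/
theorem ww_psi (hbS : ∀ j, phi S j = 0 ∨ phi S j = 1) (h : co phi i0 S = 1)
    {b : Ker (co phi i0)} (hb : WW (phK phi (co phi i0)) (II phi S i0) (OO phi S) b) {a : L}
    (ha : a = b ∨ a = b + S) : WW (psi phi S i0) (II phi S i0) (insert i0 (OO phi S)) a := by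
  obtain ⟨w1, w2, -⟩ := hb
  have hb0 : phi (b : L) i0 = 0 := b.2
  have hS0 : phi S i0 = 1 := h
  have h0 : phi a i0 = 0 ∨ phi a i0 = 1 := by
    rcases ha with h1 | h1
    · left; rw [h1]; exact hb0
    · right; rw [h1, map_add, Pi.add_apply, hb0, hS0, zero_add]
  have hII : ∀ q ∈ II phi S i0, psi phi S i0 a q = phi (b : L) q := by
    intro q hq
    change (if q ∈ II phi S i0 then phi a q - phi a i0 else phi a q) = _
    rw [if_pos hq]
    have h2 := (Finset.mem_filter.1 hq).2.1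
    rcases ha with h1 | h1
    · rw [h1, hb0, sub_zero]
    · rw [h1, map_add, Pi.add_apply, Pi.add_apply, hb0, hS0, h2]
      ring
  have hnI : ∀ q, q ∉ II phi S i0 → psi phi S i0 a q = phi a q := by
    intro q hq
    change (if q ∈ II phi S i0 then phi a q - phi a i0 else phi a q) = _
    rw [if_neg hq]
  refine ⟨?_, ?_, ?_⟩
  · intro q hq
    rcases Finset.mem_insert.1 hq with rfl | h1
    · rw [hnI]
      · exact h0
      · intro h2
        exact (Finset.mem_filter.1 h2).2.2 rfl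
    · have h2 := (Finset.mem_filter.1 h1).2
      rw [hnI q (by
        intro h3
        rw [(Finset.mem_filter.1 h3).2.1] at h2
        exact one_ne_zero h2)]
      have h4 := w1 q h1
      change phi (b : L) q = 0 ∨ phi (b : L) q = 1 at h4
      rcases ha with h3 | h3
      · rw [h3]; exact h4
      · rw [h3, map_add, Pi.add_apply, h2, add_zero]; exact h4
  · rcases w2 with w2 | w2
    · left
      intro q hq
      rw [hII q hq]
      exact w2 q hq
    · right
      intro q hq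
      rw [hII q hq]
      exact w2 q hq
  · intro q hq1 hq2
    exfalso
    apply hq2
    rw [Finset.mem_insert]
    rcases hbS q with h2 | h2
    · right
      exact Finset.mem_filter.2 ⟨Finset.mem_univ q, h2⟩
    · left
      by_contra h3
      exact hq1 (Finset.mem_filter.2 ⟨Finset.mem_univ q, h2, h3⟩)

/-! ### The completion -/

/-- the coefficients of `B`. -/
theorem B_coeff0 (H : Cx phi E S i0 h eta G R z) (a : Ker (co phi i0)) :
    (Bp phi S i0 eta G R).coeff (a : L) = -R.coeff a := by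
  have h1 := congrArg (fun F : AO ℤ L => F.coeff (a : L)) (E_eq H)
  simp only [AddMonoidAlgebra.coeff_add, Finsupp.add_apply, cst_mul_coeff] at h1
  rw [E_coeff0 H, A_coeff0 (h := h)] at h1
  apply mul_left_cancel₀ z.ne_zero
  linear_combination -h1

theorem B_coeff1 (H : Cx phi E S i0 h eta G R z) (a : Ker (co phi i0)) :
    (eta : RO ℤ) * (Bp phi S i0 eta G R).coeff ((a : L) + S) = R.coeff a - G.coeff a := by
  have h1 := congrArg (fun F : AO ℤ L => F.coeff ((a : L) + S)) (E_eq H)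
  simp only [AddMonoidAlgebra.coeff_add, Finsupp.add_apply, cst_mul_coeff] at h1
  have h2 := E_coeff1 H a
  have h3 := A_coeff1 (h := h) (eta := eta) (G := G) (R := R) a
  apply mul_left_cancel₀ z.ne_zero
  linear_combination -(eta : RO ℤ) * h1 + h2 - h3

/-- the exponents of `B`. -/
theorem supp_B (H : Cx phi E S i0 h eta G R z) (a : L)
    (ha : (Bp phi S i0 eta G R).coeff a ≠ 0) :
    ∃ b : Ker (co phi i0), (G.coeff b ≠ 0 ∨ R.coeff b ≠ 0) ∧ (a = b ∨ a = b + S) := by
  -- the first coordinate of `a`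
  have hco : co phi i0 a = 0 ∨ co phi i0 a = 1 := by
    have h1 := congrArg (fun F : AO ℤ L => F.coeff a) (E_eq H)
    simp only [AddMonoidAlgebra.coeff_add, Finsupp.add_apply, cst_mul_coeff] at h1
    by_cases h2 : E.coeff a = 0
    · by_cases h3 : (Ap phi S i0 eta G R).coeff a = 0
      · rw [h2, h3, zero_add] at h1
        exact absurd ((mul_eq_zero.1 h1.symm).resolve_left z.ne_zero) ha
      · exact co_A (h := h) a h3
    · exact bin_co H a h2
  rcases hco with h1 | h1
  · refine ⟨⟨a, h1⟩, ?_, Or.inl rfl⟩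
    right
    intro h2
    have e1 := B_coeff0 H ⟨a, h1⟩
    rw [h2, neg_zero] at e1
    exact ha e1
  · have hK : a - S ∈ Ker (co phi i0) := by
      rw [mem_Ker, map_sub, h1, h, sub_self]
    refine ⟨⟨a - S, hK⟩, ?_, Or.inr (sub_add_cancel a S).symm⟩
    have e1 := B_coeff1 H ⟨a - S, hK⟩
    change (eta : RO ℤ) * (Bp phi S i0 eta G R).coeff (a - S + S) = _ at e1
    rw [sub_add_cancel] at e1
    by_contra hcon
    push Not at hcon
    rw [hcon.1, hcon.2, sub_zero] at e1
    exact ha ((mul_eq_zero.1 e1).resolve_left eta.ne_zero)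

/-- the completion: an element of `WD`, and its coefficients. -/
theorem wd_compl (h6 : G0S) (hUn : UnitAS) (hCI : ComplIrrS) (hC : ComplS)
    (H : Cx phi E S i0 h eta G R z) (hnu : ¬ IsUnit (1 - (z : RO ℤ)))
    (hst : Stable (Ap phi S i0 eta G R))
    (hrk : rk (supp (Ap phi S i0 eta G R)) = Module.finrank ℤ L) :
    ∃ (t : L) (c : (RO ℤ)ˣ),
      WD (phC (psi phi S i0) t) ((II phi S i0).map Function.Embedding.some)
        (insert none ((insert i0 (OO phi S)).map Function.Embedding.some))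
        (compl (Ap phi S i0 eta G R)) ∧
      (∀ x, (compl (Ap phi S i0 eta G R)).coeff (x, 0) = (Ap phi S i0 eta G R).coeff x) ∧
      ∀ y, (Bp phi S i0 eta G R).coeff y =
        (compl (Ap phi S i0 eta G R)).coeff (y - t, 1) * (c : RO ℤ) := by
  obtain ⟨h1, h2, h3, h4, h5⟩ := hC ℤ L _ hst
  obtain ⟨t0, c, -, hrev⟩ := rev hUn H
  have hG0 : Ap phi S i0 eta G R ≠ 0 := by
    intro h0
    apply hst.1
    rw [h0]
    rfl
  have hc0 : ∀ x, (compl (Ap phi S i0 eta G R)).coeff (x, 0) = (Ap phi S i0 eta G R).coeff x := by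
    intro x
    rw [H59.compl_coeff, if_pos rfl]
  have hc1 : ∀ x, (compl (Ap phi S i0 eta G R)).coeff (x, 1) =
      (sharp (Ap phi S i0 eta G R)).coeff x := by
    intro x
    rw [H59.compl_coeff, if_neg one_ne_zero, if_pos rfl, sharp_coeff']
  have hB : ∀ y, (Bp phi S i0 eta G R).coeff y =
      (compl (Ap phi S i0 eta G R)).coeff (y - ((t0 : L) + S), 1) *
        ((z⁻¹ * (eta⁻¹ * c) : (RO ℤ)ˣ) : RO ℤ) := by
    intro y
    have e1 := congrArg (fun F : AO ℤ L => F.coeff y) hrev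
    simp only [cst_mul_coeff] at e1
    have e2 : yS S eta * emK (Ker (co phi i0)) (AddMonoidAlgebra.single t0 (c : RO ℤ)) =
        AddMonoidAlgebra.single ((t0 : L) + S) ((eta⁻¹ * c : (RO ℤ)ˣ) : RO ℤ) := by
      unfold yS
      rw [Dcm.emK_single, AddMonoidAlgebra.single_mul_single, add_comm, Units.val_mul]
    rw [e2, Dcm.mul_single_coeff] at e1
    rw [hc1, Units.val_mul]
    apply mul_left_cancel₀ z.ne_zero
    have e3 : (z : RO ℤ) * ((z⁻¹ : (RO ℤ)ˣ) : RO ℤ) = 1 := Units.mul_inv z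
    linear_combination -e1 - (sharp (Ap phi S i0 eta G R)).coeff (y - ((t0 : L) + S)) *
      ((eta⁻¹ * c : (RO ℤ)ˣ) : RO ℤ) * e3
  have hbS : ∀ j, phi S j = 0 ∨ phi S j = 1 := H.cc.dd.bin S H.cc.ray.1
  refine ⟨(t0 : L) + S, z⁻¹ * (eta⁻¹ * c), ⟨?_, ?_, ?_, h1, h2,
    hCI ℤ L _ hG0 (fun d hd hdA hdS => cop hUn H hnu d hd hdA hdS), ?_⟩, hc0, hB⟩
  · intro x y hxy
    have e1 : x.2 = y.2 := congrFun hxy none
    have e2 : psi phi S i0 (x.1 + x.2 • ((t0 : L) + S)) = psi phi S i0 (y.1 + y.2 • ((t0 : L) + S)) := by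
      funext p
      exact congrFun hxy (some p)
    have e3 := psi_inj H.cc.dd.inj e2
    rw [e1] at e3
    exact Prod.ext (add_right_cancel e3) e1
  · rw [Finset.disjoint_left]
    intro o ho1 ho2
    obtain ⟨q, hq, rfl⟩ := Finset.mem_map.1 ho1
    rcases Finset.mem_insert.1 ho2 with h6 | h6
    · exact absurd h6 (by simp)
    · obtain ⟨q', hq', hqq⟩ := Finset.mem_map.1 h6
      have e1 : q' = q := Function.Embedding.some.injective hqq
      rw [e1] at hq'
      have e2 := (Finset.mem_filter.1 hq).2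
      rcases Finset.mem_insert.1 hq' with h7 | h7
      · exact e2.2 h7
      · have e3 := (Finset.mem_filter.1 h7).2
        rw [e2.1] at e3
        exact one_ne_zero e3
  · -- the exponents
    intro x hx
    have key : ∃ (y : L), WW (psi phi S i0) (II phi S i0) (insert i0 (OO phi S)) y ∧
        x.1 + x.2 • ((t0 : L) + S) = y ∧ (x.2 = 0 ∨ x.2 = 1) := by
      rcases h4 x hx with ⟨h7, h8⟩ | ⟨h7, h8⟩
      · obtain ⟨b, hb, hab⟩ := supp_A' (h := h) x.1 h8
        refine ⟨x.1, ww_psi hbS h (ww_GR h6 H b hb) hab, ?_, Or.inl h7⟩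
        rw [h7, zero_smul, add_zero]
      · have h9 : (Bp phi S i0 eta G R).coeff (x.1 + ((t0 : L) + S)) ≠ 0 := by
          rw [hB, add_sub_cancel_right]
          refine mul_ne_zero ?_ (Units.ne_zero _)
          have e1 : x = (x.1, 1) := Prod.ext rfl h7
          rw [← e1]
          exact hx
        obtain ⟨b, hb, hab⟩ := supp_B H _ h9
        refine ⟨x.1 + ((t0 : L) + S), ww_psi hbS h (ww_GR h6 H b hb) hab, ?_, Or.inr h7⟩
        rw [h7, one_smul]
    obtain ⟨y, ⟨w1, w2, w3⟩, hy, hx2⟩ := key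
    have hsome : ∀ q, phC (psi phi S i0) ((t0 : L) + S) x (some q) = psi phi S i0 y q := by
      intro q
      rw [← hy]
      rfl
    have hnone : phC (psi phi S i0) ((t0 : L) + S) x none = x.2 := rfl
    refine ⟨?_, ?_, ?_⟩
    · intro o ho
      rcases Finset.mem_insert.1 ho with rfl | h7
      · rw [hnone]
        exact hx2
      · obtain ⟨q, hq, rfl⟩ := Finset.mem_map.1 h7
        change phC (psi phi S i0) ((t0 : L) + S) x (some q) = 0 ∨
          phC (psi phi S i0) ((t0 : L) + S) x (some q) = 1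
        rw [hsome]
        exact w1 q hq
    · rcases w2 with w2 | w2
      · left
        intro o ho
        obtain ⟨q, hq, rfl⟩ := Finset.mem_map.1 ho
        change phC (psi phi S i0) ((t0 : L) + S) x (some q) = 0 ∨
          phC (psi phi S i0) ((t0 : L) + S) x (some q) = 1
        rw [hsome]
        exact w2 q hq
      · right
        intro o ho
        obtain ⟨q, hq, rfl⟩ := Finset.mem_map.1 ho
        change phC (psi phi S i0) ((t0 : L) + S) x (some q) = 0 ∨
          phC (psi phi S i0) ((t0 : L) + S) x (some q) = -1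
        rw [hsome]
        exact w2 q hq
    · intro o ho1 ho2
      cases o with
      | none => exact absurd (Finset.mem_insert_self _ _) ho2
      | some q =>
        rw [hsome]
        apply w3 q
        · intro hq
          exact ho1 (Finset.mem_map.2 ⟨q, hq, rfl⟩)
        · intro hq
          exact ho2 (Finset.mem_insert_of_mem (Finset.mem_map.2 ⟨q, hq, rfl⟩))
  · rw [h5, hrk, Module.finrank_prod, Module.finrank_self]

/-! ### z-freeness -/

/-- every exponent `k` of `x` has `q k = v`. -/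
def Ex (q v : ℤ) (x : RO ℤ) : Prop := ∀ k : ℤ, x.coeff k ≠ 0 → q * k = v

theorem ex_neg {q v : ℤ} {x : RO ℤ} (hx : Ex q v x) : Ex q v (-x) := by
  intro k hk
  apply hx k
  intro h0
  apply hk
  rw [AddMonoidAlgebra.coeff_neg, Finsupp.neg_apply, h0, neg_zero]

/-- multiplication by a unit. -/
theorem ex_unit (u : (RO ℤ)ˣ) : ∃ n : ℤ, ∀ (q v : ℤ) (x : RO ℤ), Ex q v x →
    Ex q (v + q * n) ((u : RO ℤ) * x) := by
  obtain ⟨n, s, hs⟩ := Dcm.unit_mz u
  refine ⟨n, fun q v x hx k hk => ?_⟩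
  have h1 : ((u : RO ℤ) * x).coeff k = (s : ℤ) * x.coeff (-n + k) := by
    rw [hs]
    unfold Dcm.mz
    rw [AddMonoidAlgebra.coeff_single_mul_apply]
  rw [h1] at hk
  have h2 := hx _ (right_ne_zero_of_mul hk)
  linear_combination h2

/-- `G` and `R` are z-free with the same exponents. -/
theorem zfree_GR (H : Cx phi E S i0 h eta G R z) (hR0 : R.coeff 0 ≠ 0) {t : L} {c : (RO ℤ)ˣ}
    (hc0 : ∀ x, (compl (Ap phi S i0 eta G R)).coeff (x, 0) = (Ap phi S i0 eta G R).coeff x)
    (hc1 : ∀ y, (Bp phi S i0 eta G R).coeff y =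
      (compl (Ap phi S i0 eta G R)).coeff (y - t, 1) * (c : RO ℤ))
    (hz : ZFree (compl (Ap phi S i0 eta G R))) :
    ∃ (q : ℕ) (l : Ker (co phi i0) →+ ℤ) (n : ℤ), 0 < q ∧
      (∀ a, Ex q (l a + (q : ℤ) * n) (G.coeff a)) ∧
      ∀ a, Ex q (l a + (q : ℤ) * n) (R.coeff a) := by
  obtain ⟨q, l, n, hq, hz⟩ := hz
  have hq' : (q : ℤ) ≠ 0 := by exact_mod_cast hq.ne'
  obtain ⟨j, hj⟩ := ex_unit eta
  obtain ⟨j', hj'⟩ := ex_unit c
  -- the four levels
  have e1 : ∀ a : Ker (co phi i0), Ex q (l ((a : L), 0) + q * n) (G.coeff a + R.coeff a) := by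
    intro a
    rw [← A_coeff0 (h := h) (eta := eta) (G := G) (R := R) a, ← hc0]
    exact hz _
  have e2 : ∀ a : Ker (co phi i0),
      Ex q (l ((a : L), 0) + q * n + (l (S, 0) + q * j)) (R.coeff a) := by
    intro a
    have h1 := hj q _ _ (hz ((a : L) + S, 0))
    rw [hc0, A_coeff1 (h := h) (eta := eta) (G := G) (R := R) a] at h1
    have h2 := ex_neg h1
    rw [neg_neg] at h2
    have h3 : l ((a : L) + S, 0) = l ((a : L), 0) + l (S, 0) := by
      rw [← map_add]; simp
    rw [h3] at h2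
    intro k hk
    have := h2 k hk
    linear_combination this
  have hlt : ∀ y : L, l (y - t, 1) = l (y, 0) + l (-t, 1) := by
    intro y
    rw [← map_add]
    simp [sub_eq_add_neg]
  have e4 : ∀ a : Ker (co phi i0),
      Ex q (l ((a : L), 0) + q * n + (l (-t, 1) + q * j')) (R.coeff a) := by
    intro a
    have h1 := hj' q _ _ (hz ((a : L) - t, 1))
    rw [mul_comm (c : RO ℤ), ← hc1, B_coeff0 H] at h1
    have h2 := ex_neg h1
    rw [neg_neg, hlt] at h2
    intro k hk
    have := h2 k hk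
    linear_combination this
  have e3 : ∀ a : Ker (co phi i0),
      Ex q (l ((a : L), 0) + q * n + ((l (S, 0) + q * j) + (l (-t, 1) + q * j')))
        (R.coeff a - G.coeff a) := by
    intro a
    have h1 := hj' q _ _ (hz ((a : L) + S - t, 1))
    rw [mul_comm (c : RO ℤ), ← hc1] at h1
    have h2 := hj q _ _ h1
    rw [B_coeff1 H, hlt] at h2
    have h3 : l ((a : L) + S, 0) = l ((a : L), 0) + l (S, 0) := by
      rw [← map_add]; simp
    rw [h3] at h2
    intro k hk
    have := h2 k hk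
    linear_combination this
  obtain ⟨mu, hmu⟩ : ∃ mu : ℤ, mu = l (S, 0) + q * j := ⟨_, rfl⟩
  obtain ⟨nu, hnu⟩ : ∃ nu : ℤ, nu = l (-t, 1) + q * j' := ⟨_, rfl⟩
  rw [← hmu] at e2 e3
  rw [← hnu] at e3 e4
  -- the exponent of `R_0`
  obtain ⟨k0, hk0⟩ : ∃ k, (R.coeff 0).coeff k ≠ 0 := by
    by_contra hcon
    push Not at hcon
    apply hR0
    apply AddMonoidAlgebra.ext
    apply Finsupp.ext
    intro k
    exact hcon k
  have f2 := e2 0 k0 hk0
  have f4 := e4 0 k0 hk0
  have hmn : nu = mu := by linarith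
  have hmu0 : mu = 0 := by
    by_contra hne
    have g1 : (G.coeff 0 + R.coeff 0).coeff k0 = 0 := by
      by_contra h1
      have := e1 0 k0 h1
      apply hne
      linarith
    have g3 : (R.coeff 0 - G.coeff 0).coeff k0 = 0 := by
      by_contra h1
      have := e3 0 k0 h1
      apply hne
      linarith
    rw [AddMonoidAlgebra.coeff_add, Finsupp.add_apply] at g1
    rw [AddMonoidAlgebra.coeff_sub, Finsupp.sub_apply] at g3
    apply hk0
    omega
  rw [hmu0] at hmn
  refine ⟨q, (l.comp (AddMonoidHom.inl L ℤ)).comp (incl (Ker (co phi i0))), n, hq, ?_, ?_⟩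
  · intro a k hk
    change (q : ℤ) * k = l ((a : L), 0) + (q : ℤ) * n
    by_cases h1 : (G.coeff a + R.coeff a).coeff k = 0
    · have h2 : (R.coeff a - G.coeff a).coeff k ≠ 0 := by
        intro h2
        rw [AddMonoidAlgebra.coeff_add, Finsupp.add_apply] at h1
        rw [AddMonoidAlgebra.coeff_sub, Finsupp.sub_apply] at h2
        apply hk
        omega
      have h3 := e3 a k h2
      rw [hmn, hmu0, add_zero, add_zero] at h3
      exact h3
    · exact e1 a k h1
  · intro a k hk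
    change (q : ℤ) * k = l ((a : L), 0) + (q : ℤ) * n
    have h3 := e2 a k hk
    rw [hmu0, add_zero] at h3
    exact h3

/-- two monomials with the same exponent. -/
theorem two_mono {q v : ℤ} (hq : q ≠ 0) {x y : RO ℤ} (hx : Ex q v x) (hy : Ex q v y) :
    ∃ (m : ℤ) (al be : ℤ), x = Dcm.mz m al ∧ y = Dcm.mz m be := by
  by_cases hv : q ∣ v
  · obtain ⟨m, hm⟩ := hv
    have key : ∀ w : RO ℤ, Ex q v w → w = Dcm.mz m (w.coeff m) := by
      intro w hw
      apply AddMonoidAlgebra.ext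
      apply Finsupp.ext
      intro k
      unfold Dcm.mz
      rw [AddMonoidAlgebra.coeff_single, Finsupp.single_apply]
      split_ifs with h1
      · rw [h1]
      · by_contra h2
        have h3 := hw k h2
        rw [hm] at h3
        exact h1 (mul_left_cancel₀ hq h3).symm
    exact ⟨m, _, _, key x hx, key y hy⟩
  · have key : ∀ w : RO ℤ, Ex q v w → w = Dcm.mz 0 0 := by
      intro w hw
      unfold Dcm.mz
      rw [AddMonoidAlgebra.single_zero]
      apply AddMonoidAlgebra.ext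
      apply Finsupp.ext
      intro k
      by_contra h2
      exact hv ⟨k, (hw k h2).symm⟩
    exact ⟨0, 0, 0, key x hx, key y hy⟩

end parts

/-! ## One variable -/

section one

open Polynomial

/-- `A` is zero-free if `p = A - B` is zero-free on the closed disc and `|B| ≤ |A|` on the
circle. -/
theorem zf_of_quot {p F : ℤ[X]} (hp : ∀ z : ℂ, ‖z‖ ≤ 1 → (aeval z p : ℂ) ≠ 0)
    (h : ∀ z : ℂ, ‖z‖ = 1 → Complex.normSq (aeval z p : ℂ) ≤
      2 * ((aeval z F : ℂ) * (starRingEnd ℂ) (aeval z p : ℂ)).re) (z : ℂ) (hz : ‖z‖ < 1) :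
    (aeval z F : ℂ) ≠ 0 := by
  let u : ℂ → ℂ := fun z => Complex.exp (-((aeval z F : ℂ) / (aeval z p : ℂ)))
  have hud : ∀ z : ℂ, ‖z‖ ≤ 1 → DifferentiableAt ℂ u z := fun z hz =>
    ((F.differentiable_aeval z).div (p.differentiable_aeval z) (hp z hz)).neg.cexp
  have hcl : closure (Metric.ball (0 : ℂ) 1) = Metric.closedBall 0 1 :=
    closure_ball 0 one_ne_zero
  have hdc : DiffContOnCl ℂ u (Metric.ball (0 : ℂ) 1) := by
    refine ⟨fun z hz => (hud z ?_).differentiableWithinAt, fun z hz =>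
      (hud z ?_).continuousAt.continuousWithinAt⟩
    · rw [mem_ball_zero_iff] at hz
      exact hz.le
    · rw [hcl, mem_closedBall_zero_iff] at hz
      exact hz
  have h2 := Complex.norm_le_of_forall_mem_frontier_norm_le (U := Metric.ball (0 : ℂ) 1)
    Metric.isBounded_ball hdc (C := Real.exp (-(1 / 2))) (by
      intro w hw
      rw [frontier_ball _ one_ne_zero, mem_sphere_zero_iff_norm] at hw
      change ‖Complex.exp (-((aeval w F : ℂ) / (aeval w p : ℂ)))‖ ≤ _
      rw [Complex.norm_exp, Real.exp_le_exp, Complex.neg_re, neg_le_neg_iff, Complex.div_re]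
      have h3 := h w hw
      have h4 : 0 < Complex.normSq (aeval w p : ℂ) := Complex.normSq_pos.2 (hp w hw.le)
      rw [← add_div, div_le_div_iff₀ (by norm_num) h4]
      simp only [Complex.mul_re, Complex.conj_re, Complex.conj_im] at h3
      linarith) (subset_closure (mem_ball_zero_iff.2 hz))
  intro h0
  change ‖Complex.exp (-((aeval z F : ℂ) / (aeval z p : ℂ)))‖ ≤ _ at h2
  rw [h0, zero_div, neg_zero, Complex.exp_zero, norm_one] at h2
  have h3 : Real.exp (-(1 / 2)) < 1 := by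
    rw [Real.exp_lt_one_iff]
    norm_num
  linarith

theorem sq_key (a b : ℂ) (h : ‖b‖ ≤ ‖a‖) : Complex.normSq (a - b) ≤
    2 * (a * (starRingEnd ℂ) (a - b)).re := by
  have h1 : Complex.normSq b ≤ Complex.normSq a := by
    rw [Complex.normSq_eq_norm_sq, Complex.normSq_eq_norm_sq]
    exact pow_le_pow_left₀ (norm_nonneg _) h 2
  simp only [Complex.normSq_apply, Complex.mul_re, Complex.conj_re, Complex.conj_im,
    Complex.sub_re, Complex.sub_im] at h1 ⊢
  nlinarith

theorem rho_le (ζ g r : ℂ) (h1 : ‖ζ‖ = 1) (h2 : ζ ≠ 1) (hg : g ≠ 0)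
    (h3 : ‖ζ * g + (1 - ζ) * r‖ ≤ ‖g + (1 - ζ) * r‖) : ‖r‖ ≤ ‖g + r‖ := by
  have e1 : ζ * g + (1 - ζ) * r = g * (ζ + (1 - ζ) * (r / g)) := by field_simp
  have e2 : g + (1 - ζ) * r = g * (1 + (1 - ζ) * (r / g)) := by field_simp
  rw [e1, e2, norm_mul, norm_mul] at h3
  have h4 := rho_re ζ (r / g) h1 h2 (le_of_mul_le_mul_left h3 (norm_pos_iff.2 hg))
  have e3 : r = g * (r / g) := by field_simp
  have e4 : g + r = g * (1 + r / g) := by field_simp
  rw [e4, norm_mul]
  conv_lhs => rw [e3, norm_mul]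
  apply mul_le_mul_of_nonneg_left _ (norm_nonneg _)
  rw [← sq_le_sq₀ (norm_nonneg _) (norm_nonneg _), ← Complex.normSq_eq_norm_sq,
    ← Complex.normSq_eq_norm_sq]
  simp only [Complex.normSq_apply, Complex.add_re, Complex.add_im, Complex.one_re, Complex.one_im]
  nlinarith

theorem mz_eq (m a : ℤ) : (Dcm.mz m a : RO ℤ) = LaurentPolynomial.T m * toLaurent (C a) := by
  unfold Dcm.mz
  rw [LaurentPolynomial.single_eq_C_mul_T, toLaurent_C, mul_comm]

end one

/-! ## The rows -/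

section rows

open Polynomial

/-- the binomial form, without the port. -/
theorem bin0 (m al be : ℤ) (k : ℕ) (ep : ℤ) :
    Dcm.mz m al + toLaurent (1 - C ep * X ^ k) * Dcm.mz m be =
      LaurentPolynomial.T m * toLaurent (C (al + be) + C (-(ep * be)) * X ^ k) := by
  have h1 : (C (al + be) + C (-(ep * be)) * X ^ k : ℤ[X]) =
      C al + (1 - C ep * X ^ k) * C be := by
    rw [C_add, C_neg, C_mul]
    ring
  rw [mz_eq, mz_eq, h1, map_add, map_mul toLaurent (1 - C ep * X ^ k)]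
  ring

/-- the binomial form, with the port. -/
theorem bin1 (m al be : ℤ) (k : ℕ) (ep : ℤ) :
    toLaurent (1 - C ep * X ^ k) * Dcm.mz m al -
      (Dcm.mz m al + toLaurent (1 - C ep * X ^ k) * Dcm.mz m be) =
      LaurentPolynomial.T m * toLaurent (C (-be) + C (ep * be - ep * al) * X ^ k) := by
  have h1 : (C (-be) + C (ep * be - ep * al) * X ^ k : ℤ[X]) =
      (1 - C ep * X ^ k) * C al - (C al + (1 - C ep * X ^ k) * C be) := by
    rw [C_neg, C_sub, C_mul, C_mul]
    ring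
  rw [mz_eq, mz_eq, h1]
  generalize (1 - C ep * X ^ k : ℤ[X]) = w
  rw [map_sub, map_add, map_mul, map_mul]
  ring

theorem circ (z : ℂ) (hz : ‖z‖ = 1) : ∃ zc : Circle, (zc : ℂ) = z :=
  ⟨⟨z, mem_sphere_zero_iff_norm.2 hz⟩, rfl⟩

/-- (BPR_DC) decoupling. -/
theorem decS (h2 : MultiS) (h3 : StSpecS) (h5 : B2cS) (h6 : G0S) (h7 : EvRS) (hA : A3bS)
    (hZ : ZfinS) (hUn : UnitAS) (hCI : ComplIrrS) (hC : ComplS) (hR : RkS) (hE2 : E2S)
    (hFw : H71.FclwS) (hL2 : L2S) (hEvz : EvzS) (hEv1 : BdV ℤ 1 1) : BPR.DecS := by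
  intro P L _ _ _ _ _ phi E N p f S i e h G R k ep hX hG hf0 hk hep hcl hXE
  obtain ⟨zu, hzu⟩ := zu_exists k ep hep
  have hN := hX.n3
  have hN' : (3 : ℝ) ≤ N := by exact_mod_cast hN
  have hbin : ∀ a ∈ supp E, co phi i a = 0 ∨ co phi i a = 1 := fun a ha => hX.dd.bin a ha i
  have hw := w_ne k hk ep
  -- the constant coefficients
  have hV0 : E.coeff 0 + (e : RO ℤ) * E.coeff S =
      toLaurent (1 - C ep * X ^ k) * G.coeff 0 := by
    have e1 := H47.cl_coeff_bin (co phi i) S h e E hbin 0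
    rw [hcl, cst_mul_coeff] at e1
    change _ = E.coeff (0 : L) + (e : RO ℤ) * E.coeff ((0 : L) + S) at e1
    rw [zero_add] at e1
    exact e1.symm
  have hV1 : E.coeff 0 + (e : RO ℤ) * E.coeff S = toLaurent (p - f) := by
    rw [hX.e0, hG.eq, map_sub]
    ring
  obtain ⟨g0, hg0⟩ := quo k hk ep _ _ (hV0.symm.trans hV1)
  have hg00 : g0.coeff 0 = (N : ℤ) - 1 := by
    have e1 : (1 - C ep * X ^ k) * g0 = p - f := by
      apply Dcm.toLaurent_inj'
      rw [map_mul, ← hg0, ← hV0, hV1]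
    have e2 := congrArg (fun f : ℤ[X] => f.coeff 0) e1
    change ((1 - C ep * X ^ k) * g0).coeff 0 = (p - f).coeff 0 at e2
    rw [mul_coeff_zero, w_coeff0 k hk, one_mul, coeff_sub, hX.p0, hf0] at e2
    exact e2
  have hG0 : G.coeff 0 ≠ 0 := by
    intro h0
    rw [h0] at hg0
    have e1 : g0 = 0 := Dcm.toLaurent_inj' (hg0.symm.trans (map_zero toLaurent).symm)
    rw [e1, coeff_zero] at hg00
    omega
  have hcc : CC phi E S i e := by
    refine ⟨hX.dd, by have := hX.rkL; omega, hG.ray, h, ?_⟩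
    rw [hV0]
    exact mul_ne_zero hw hG0
  have H : Cx phi E S i h e G R zu := by
    refine ⟨hcc, by rw [← hzu]; exact hw, by rw [← hzu]; exact hcl, ?_⟩
    apply AddMonoidAlgebra.ext
    apply Finsupp.ext
    intro a
    rw [res_coeff, hXE a, hzu, AddMonoidAlgebra.coeff_add, Finsupp.add_apply, cst_mul_coeff]
  have hnu : ¬ IsUnit (1 - (zu : RO ℤ)) := by
    rw [← hzu]
    exact w_not_unit h7 k hk ep hep
  have hX0 : E.coeff 0 = G.coeff 0 + toLaurent (1 - C ep * X ^ k) * R.coeff 0 := hXE 0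
  have hq : (toLaurent (1 - C ep * X ^ k) : RO ℤ) * R.coeff 0 = toLaurent (p - g0) := by
    rw [map_sub toLaurent p, ← hX.e0, ← hg0, hX0]
    ring
  obtain ⟨r0, hr0⟩ := quo k hk ep _ _ hq
  have hr00 : r0.coeff 0 = 1 := by
    have e1 : (1 - C ep * X ^ k) * r0 = p - g0 := by
      apply Dcm.toLaurent_inj'
      rw [map_mul, ← hr0, hq]
    have e2 := congrArg (fun f : ℤ[X] => f.coeff 0) e1
    change ((1 - C ep * X ^ k) * r0).coeff 0 = (p - g0).coeff 0 at e2
    rw [mul_coeff_zero, w_coeff0 k hk, one_mul, coeff_sub, hX.p0, hg00] at e2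
    rw [e2]
    ring
  have hR0 : R.coeff 0 ≠ 0 := by
    intro h0
    rw [h0] at hr0
    have e1 : r0 = 0 := Dcm.toLaurent_inj' (hr0.symm.trans (map_zero toLaurent).symm)
    rw [e1, coeff_zero] at hr00
    exact zero_ne_one hr00
  -- the completion
  have hst := A_stable' h2 h3 h5 h6 h7 hA hZ H
  obtain ⟨t, c, hWD, hc0, hc1⟩ := wd_compl h6 hUn hCI hC H hnu hst (UfgD.rk_A2 hR H hR0)
  have hA0 : (Ap phi S i e G R).coeff 0 = toLaurent (g0 + r0) := by
    have e1 := A_coeff0 (h := h) (eta := e) (G := G) (R := R) 0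
    change (Ap phi S i e G R).coeff 0 = _ at e1
    rw [e1, map_add, ← hg0, ← hr0]
  have hcA : (compl (Ap phi S i e G R)).coeff 0 = toLaurent (g0 + r0) := by
    rw [← hA0, ← hc0]
    rfl
  -- `|R_0| ≤ |G_0 + R_0|` on the circle
  have hle : ∀ z : Circle, ‖evR z (toLaurent r0 : RO ℤ)‖ ≤ ‖evR z (toLaurent (g0 + r0) : RO ℤ)‖ := by
    have hcl' : IsClosed {z : Circle | ‖evR z (toLaurent r0 : RO ℤ)‖ ≤
        ‖evR z (toLaurent (g0 + r0) : RO ℤ)‖} :=
      isClosed_le ((h7 ℤ).2.2.2 (toLaurent r0)).norm ((h7 ℤ).2.2.2 (toLaurent (g0 + r0))).norm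
    refine H09.tpm_dense hZ (toLaurent (1 - C ep * X ^ k) * G.coeff 0 : RO ℤ)
      (mul_ne_zero hw hG0) _ hcl' ?_
    intro z hz
    have e1 := (h5 ℤ L E hX.dd.st).2 S hG.ray z
    have he : ‖evR z (e : RO ℤ)‖ = 1 := (h7 ℤ).2.1 z _ e.isUnit
    have hζ : ‖evR z (zu : RO ℤ)‖ = 1 := (h7 ℤ).2.1 z _ zu.isUnit
    rw [map_mul] at hz
    have hz1 : 1 - evR z (zu : RO ℤ) ≠ 0 := by
      have := left_ne_zero_of_mul hz
      rw [hzu, map_sub, map_one] at this
      exact this
    have hz2 := right_ne_zero_of_mul hz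
    have e4 : evR z (E.coeff 0) = evR z (G.coeff 0) + (1 - evR z (zu : RO ℤ)) *
        evR z (R.coeff 0) := by
      rw [hX0, hzu, map_add, map_mul, map_sub, map_one]
    have e5 : evR z (e : RO ℤ) * evR z (E.coeff S) =
        -(evR z (zu : RO ℤ) * evR z (G.coeff 0) + (1 - evR z (zu : RO ℤ)) *
          evR z (R.coeff 0)) := by
      have e6 := congrArg (evR z) hV0
      rw [map_add, map_mul, hzu, map_mul, map_sub, map_one] at e6
      linear_combination e6 - e4
    have e7 : ‖evR z (zu : RO ℤ) * evR z (G.coeff 0) + (1 - evR z (zu : RO ℤ)) *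
        evR z (R.coeff 0)‖ ≤ ‖evR z (G.coeff 0) + (1 - evR z (zu : RO ℤ)) *
        evR z (R.coeff 0)‖ := by
      rw [← e4, ← norm_neg, ← e5, norm_mul, he, one_mul]
      exact e1
    have e8 := rho_le _ _ _ hζ (fun hh => hz1 (by rw [hh, sub_self])) hz2 e7
    change ‖evR z (toLaurent r0 : RO ℤ)‖ ≤ ‖evR z (toLaurent (g0 + r0) : RO ℤ)‖
    rw [map_add toLaurent, map_add, ← hg0, ← hr0]
    exact e8
  -- `p` has no zero on the closed disc
  have hrk2 : 2 ≤ Module.finrank ℤ L := by have := hX.rkL; omega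
  have hpcl : ∀ z : ℂ, ‖z‖ ≤ 1 → (aeval z p : ℂ) ≠ 0 := by
    intro z hz
    rcases lt_or_eq_of_le hz with h8 | h8
    · obtain ⟨hN1, n, q, hqE, hqN, hqz⟩ := hX.cv
      have hq0 : q.coeff 0 ≠ 0 := by
        intro h0
        rw [h0, map_zero, norm_zero] at hqN
        linarith
      have e1 : (LaurentPolynomial.T 0 : RO ℤ) * toLaurent p =
          LaurentPolynomial.T n * toLaurent q := by
        rw [LaurentPolynomial.T_zero, one_mul, ← hX.e0, hqE]
      obtain ⟨-, e2⟩ := H09.nf_unique 0 n p q (by rw [hX.p0]; exact_mod_cast (by omega : N ≠ 0))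
        hq0 e1
      have e3 := hqz z h8
      rw [← e2, Dcm.map_emb] at e3
      exact e3
    · obtain ⟨zc, rfl⟩ := circ z h8
      have e1 := (hE2 ℤ P L phi E hX.dd hrk2).1 zc
      rw [hX.e0, evR_aeval] at e1
      exact e1
  have hzf : ∀ z : ℂ, ‖z‖ < 1 → (aeval z (g0 + r0) : ℂ) ≠ 0 := by
    apply zf_of_quot hpcl
    intro z hz
    obtain ⟨zc, rfl⟩ := circ z hz
    have e1 := hle zc
    have hζ : ‖evR zc (zu : RO ℤ)‖ = 1 := (h7 ℤ).2.1 _ _ zu.isUnit
    have e2 : (aeval (zc : ℂ) p : ℂ) = aeval (zc : ℂ) (g0 + r0) -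
        evR zc (zu : RO ℤ) * aeval (zc : ℂ) r0 := by
      have e3 := congrArg (evR zc) hX0
      rw [hX.e0, hzu, map_add, map_mul, map_sub, map_one, hg0, hr0, evR_aeval, evR_aeval,
        evR_aeval] at e3
      rw [map_add, e3]
      ring
    rw [e2]
    apply sq_key
    rw [norm_mul, hζ, one_mul]
    rw [evR_aeval, evR_aeval] at e1
    exact e1
  have hVN : ClassV (N : ℝ) ((compl (Ap phi S i e G R)).coeff 0) := by
    rw [hcA]
    have e1 := Dcm.classV_poly (N := (N : ℤ)) (by omega) (F := g0 + r0) (by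
      rw [coeff_add, hg00, hr00, sub_add_cancel]
      exact abs_of_nonneg (by omega)) hzf
    rw [Int.cast_natCast] at e1
    exact e1
  have hfr : Module.finrank ℤ (L × ℤ) = Module.finrank ℤ L + 1 := by
    rw [Module.finrank_prod, Module.finrank_self]
  have hzf' : ZFree (compl (Ap phi S i e G R)) := by
    rcases hFw ℤ (Option P) (L × ℤ) _ _ _ _ N hWD hVN (by omega) with h8 |
      ⟨N1, D', hN1, hD', hV'⟩
    · exact h8
    · exfalso
      have hfr2 : Module.finrank ℤ ((L × ℤ) × ℤ) = Module.finrank ℤ L + 2 := by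
        rw [Module.finrank_prod, Module.finrank_self, hfr]
      obtain ⟨P', L', i1, i2, i3, i4, i5, phi', G', hDD, hrk', hcls⟩ :=
        hL2 ℤ _ _ _ _ _ _ hD' (by omega) (Or.inl ⟨N1, hV'⟩)
      obtain ⟨N2, hN2, hV2⟩ := hcls.1 N1 hV'
      have := hX.rkL
      exact fcl_no hEvz hEv1 (j := N) (by omega) (hN2.trans hN1) hDD hV2 (by omega)
  obtain ⟨q, l, n, hq, hzG, hzR⟩ := zfree_GR H hR0 hc0 hc1 hzf'
  refine ⟨⟨q, l, n, hq, fun a j hj => hzG a j hj⟩, k, hk, fun x => ?_⟩
  by_cases hx : E.coeff x = 0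
  · exact ⟨0, 0, 0, by rw [hx]; simp⟩
  rcases hbin x hx with h8 | h8
  · obtain ⟨m, al, be, e1, e2⟩ := two_mono (by exact_mod_cast hq.ne') (hzG ⟨x, h8⟩)
      (hzR ⟨x, h8⟩)
    refine ⟨m, al + be, -(ep * be), ?_⟩
    have e3 := hXE ⟨x, h8⟩
    change E.coeff x = _ at e3
    rw [e3, e1, e2, bin0]
  · have hK : x - S ∈ Ker (co phi i) := by
      rw [mem_Ker, map_sub, h8, h, sub_self]
    obtain ⟨m, al, be, e1, e2⟩ := two_mono (by exact_mod_cast hq.ne') (hzG ⟨x - S, hK⟩)
      (hzR ⟨x - S, hK⟩)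
    obtain ⟨j, s, hs⟩ := Dcm.unit_mz e⁻¹
    have e3 := H47.cl_coeff_bin (co phi i) S h e E hbin ⟨x - S, hK⟩
    have e4 := hXE ⟨x - S, hK⟩
    rw [hcl, cst_mul_coeff] at e3
    change _ = E.coeff (x - S) + (e : RO ℤ) * E.coeff (x - S + S) at e3
    change E.coeff (x - S) = _ at e4
    rw [sub_add_cancel, e4, e1, e2] at e3
    have e5 : (e : RO ℤ) * E.coeff x =
        LaurentPolynomial.T m * toLaurent (C (-be) + C (ep * be - ep * al) * X ^ k) := by
      rw [← bin1]
      linear_combination -e3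
    have e6 : E.coeff x = ((e⁻¹ : (RO ℤ)ˣ) : RO ℤ) * (LaurentPolynomial.T m *
        toLaurent (C (-be) + C (ep * be - ep * al) * X ^ k)) := by
      rw [← e5, ← mul_assoc, Units.inv_mul, one_mul]
    refine ⟨j + m, s * (-be), s * (ep * be - ep * al), ?_⟩
    have e7 : (C ((s : ℤ) * -be) + C ((s : ℤ) * (ep * be - ep * al)) * X ^ k : ℤ[X]) =
        C (s : ℤ) * (C (-be) + C (ep * be - ep * al) * X ^ k) := by
      rw [C_mul (a := (s : ℤ)), C_mul (a := (s : ℤ))]
      ring
    rw [e6, hs, mz_eq, LaurentPolynomial.T_add, e7, map_mul toLaurent (C (s : ℤ))]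
    ring

/-- (BPR_CB). -/
theorem ctbS (hCc : CcngS) (hDc : BPR.DecS) : BPR.CtbS := by
  intro P L _ _ _ _ _ phi E N p f S i e h c n G hX hG hf0 hz hc
  obtain ⟨k, ep, G', R, hk, hep, hcl, -, -, hXE⟩ := hCc P L phi E S i h e c n G N p f 1 hX.dd
    hG.ray hz hX.n3 hX.cv hX.rkL (by rw [Units.val_one, one_mul, hX.e0])
    (by rw [Units.val_one, one_mul, hG.eq]) hX.p0 hf0 hc
  exact (hDc P L phi E N p f S i e h G' R k ep hX hG hf0 hk hep hcl hXE).2

end rows

end Pool.Agent.B5.DecP
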